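import Pool.Agent.helper7.AL.SpecM

/-! Project al, row MLC. -/

set_option autoImplicit false

namespace Pool.Agent.AL

open Finset Pool.Agent.helper85.FC Pool.Agent.helper11.MK

theorem MLC (h : LNV_stmt) : MLC_stmt := by
  classical
  intro k m a b X Y u₀ h₁ h₂ hk hm hX hY hXd hYd hc hb ha p hp
  by_cases hpm : p ∣ m * (4 * k).factorial
  · obtain ⟨n1, n2, n3, n4⟩ := hc p hp hpm
    -- every `z` is `0` or `u₀` modulo `p`
    have hz0 : ∀ z ∈ X ∪ Y, (p : ℤ) ∣ z ∨ (p : ℤ) ∣ z - u₀ := by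
      intro z hz
      rcases (hp.dvd_mul).1 hpm with h1 | h1
      · left
        have h2 : (p : ℤ) ∣ ((2 * m : ℕ) : ℤ) := by exact_mod_cast h1.mul_left 2
        rcases mem_union.mp hz with hz | hz
        · exact h2.trans (hXd z hz).2
        · exact h2.trans (hYd z hz).2
      · have h2 : (p : ℤ) ∣ (((4 * k).factorial : ℕ) : ℤ) := by exact_mod_cast h1
        rcases mem_union.mp hz with hz | hz
        · exact Or.inl (h2.trans (hXd z hz).1)
        · exact Or.inr (h2.trans (hYd z hz).1)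
    have key : ∀ g : ℤ, ¬ (p : ℤ) ∣ g → ¬ (p : ℤ) ∣ g + u₀ → ∀ z ∈ X ∪ Y, ¬ (p : ℤ) ∣ g + z := by
      intro g g1 g2 z hz hdv
      rcases hz0 z hz with h1 | h1
      · exact g1 ((dvd_add_left h1).mp hdv)
      · have e : g + z = (g + u₀) + (z - u₀) := by ring
        rw [e] at hdv
        exact g2 ((dvd_add_left h1).mp hdv)
    refine ⟨0, ?_, ?_⟩
    · intro z hz
      have e : (b : ℤ) * ((0 : ℕ) : ℤ) + (h₁ + z) = h₁ + z := by push_cast; ring
      rw [e]
      exact key h₁ n1 n2 z hz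
    · intro z hz
      have e : (a : ℤ) * ((0 : ℕ) : ℤ) + (h₂ + z) = h₂ + z := by push_cast; ring
      rw [e]
      exact key h₂ n3 n4 z hz
  · have hgt : 4 * k < p := by
      by_contra hle
      exact hpm ((Nat.dvd_factorial hp.pos (not_lt.1 hle)).mul_left m)
    have hpm' : ¬ p ∣ m := fun h1 => hpm (h1.mul_right _)
    obtain ⟨n, hn⟩ := h p ((X ∪ Y).image (fun z => (b, h₁ + z)) ∪ (X ∪ Y).image (fun z => (a, h₂ + z))) hp (by
      have c1 : #(X ∪ Y) ≤ k + k := le_trans (card_union_le _ _) (by rw [hX, hY])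
      have c2 := card_union_le ((X ∪ Y).image (fun z => (b, h₁ + z))) ((X ∪ Y).image (fun z => (a, h₂ + z)))
      have c3 : #((X ∪ Y).image (fun z => (b, h₁ + z))) ≤ #(X ∪ Y) := card_image_le
      have c4 : #((X ∪ Y).image (fun z => (a, h₂ + z))) ≤ #(X ∪ Y) := card_image_le
      omega) (by
      intro v hv hdv
      rcases mem_union.mp hv with hv | hv
      · obtain ⟨z, hz, rfl⟩ := mem_image.mp hv
        exact hb p hp hgt hpm' hdv z hz
      · obtain ⟨z, hz, rfl⟩ := mem_image.mp hv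
        exact ha p hp hgt hpm' hdv z hz)
    refine ⟨n, ?_, ?_⟩
    · intro z hz
      exact hn (b, h₁ + z) (mem_union_left _ (mem_image.mpr ⟨z, hz, rfl⟩))
    · intro z hz
      exact hn (a, h₂ + z) (mem_union_right _ (mem_image.mpr ⟨z, hz, rfl⟩))

end Pool.Agent.AL
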