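import Pool.Agent.helper7.AL.SpecL

/-! Project al, row LPG. -/

set_option autoImplicit false

namespace Pool.Agent.LD

open Finset Pool.Agent.helper85.FC Pool.Agent.AT

theorem LPG_one (K W : ℕ) (hW : 1 ≤ W) (S : Finset ℤ) (hS : K * W ≤ #S) :
    ∃ T : Finset ℤ, T ⊆ S ∧ #T = K ∧ ∀ x ∈ T, ∀ y ∈ T, (W : ℤ) ∣ x - y := by
  classical
  have hW0 : (0 : ℤ) < W := by exact_mod_cast hW
  have hmap : ∀ x ∈ S, x % (W : ℤ) ∈ Finset.Ico (0 : ℤ) W := by
    intro x _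
    rw [Finset.mem_Ico]
    exact ⟨Int.emod_nonneg x hW0.ne', Int.emod_lt_of_pos x hW0⟩
  have hne : (Finset.Ico (0 : ℤ) W).Nonempty := ⟨0, Finset.mem_Ico.2 ⟨le_refl 0, hW0⟩⟩
  have hcard : #(Finset.Ico (0 : ℤ) W) * K ≤ #S := by
    rw [Int.card_Ico]
    simp only [sub_zero, Int.toNat_natCast]
    rw [mul_comm]
    exact hS
  obtain ⟨y, _, hy⟩ := Finset.exists_le_card_fiber_of_mul_le_card_of_maps_to hmap hne hcard
  obtain ⟨T, hT1, hT2⟩ := Finset.exists_subset_card_eq hy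
  refine ⟨T, fun x hx => (Finset.mem_filter.1 (hT1 hx)).1, hT2, ?_⟩
  intro x hx z hz
  have h1 := (Finset.mem_filter.1 (hT1 hx)).2
  have h2 := (Finset.mem_filter.1 (hT1 hz)).2
  exact Int.ModEq.dvd (show z % (W : ℤ) = x % (W : ℤ) by rw [h1, h2])

theorem LPG : LPG_stmt := by
  classical
  intro θ k K W s hW hB
  unfold BoxT at hB
  push Not at hB
  obtain ⟨H, hH1, hH2, hH3⟩ := hB
  choose T hT1 hT2 hT3 using fun i => LPG_one K W hW (H i) (hH1 i)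
  refine ⟨T, hT2, hT3, ?_⟩
  intro h hh
  have hh' : h ∈ Fintype.piFinset H := by
    rw [Fintype.mem_piFinset] at hh ⊢
    exact fun i => hT1 i (hh i)
  exact ⟨(hH2 h hh').1, (hH2 h hh').2, hH3 h hh'⟩

end Pool.Agent.LD
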