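import Pool.Agent.helper7.AL.SpecL

set_option autoImplicit false

/-! Row ba:LQG (MP_bf63dc_nt): the uniform alternative for the slopes 1 and every modulus. -/

namespace Pool.Agent.LD

open Finset Pool.Agent.helper85.FC Pool.Agent.AT

theorem LQG_bd (a b D z z' : ℤ) (ha : 0 < a) (hb : 0 < b) (hz : |z| < D) (hz' : |z'| < D) :
    |a * z - b * z'| < D * (a + b) := by
  rw [abs_lt] at hz hz' ⊢
  obtain ⟨h1, h2⟩ := hz
  obtain ⟨h3, h4⟩ := hz'
  have e1 : a * z < a * D := (mul_lt_mul_iff_right₀ ha).2 h2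
  have e2 : a * (-D) < a * z := (mul_lt_mul_iff_right₀ ha).2 h1
  have e3 : b * z' < b * D := (mul_lt_mul_iff_right₀ hb).2 h4
  have e4 : b * (-D) < b * z' := (mul_lt_mul_iff_right₀ hb).2 h3
  constructor <;> nlinarith

theorem LQG_inj {k : ℕ} (H : Fin k → Finset ℤ) (a b : ℕ) (h h' : ℤ)
    (hinj : ∀ y ∈ Fintype.piFinset H, Function.Injective y)
    (hne : ∀ i, ∀ z ∈ H i, ∀ j, ∀ z' ∈ H j, (a : ℤ) * (h + z) - b * (h' + z') ≠ 0)
    (x : Fin 2 → Fin k → ℤ) (hx : ∀ p, x p ∈ Fintype.piFinset H) :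
    Function.Injective (cop 2 (fun _ => 1) ![b, a] ![h, h'] x) := by
  have key : ∀ p i p' i', ((1 * (![b, a] : Fin 2 → ℕ) p : ℕ), ((1 : ℕ) : ℤ) * (![h, h'] : Fin 2 → ℤ) p + x p i) =
      ((1 * (![b, a] : Fin 2 → ℕ) p' : ℕ), ((1 : ℕ) : ℤ) * (![h, h'] : Fin 2 → ℤ) p' + x p' i') → (p, i) = (p', i') := by
    intro p i p' i' he
    rw [Prod.mk.injEq] at he
    obtain ⟨e1, e2⟩ := he
    have hm : ∀ p i, x p i ∈ H i := fun p i => Fintype.mem_piFinset.1 (hx p) i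
    have c01 : ∀ i i', b = a → h + x 0 i = h' + x 1 i' → False := by
      intro i i' q1 q2
      refine hne i (x 0 i) (hm 0 i) i' (x 1 i') (hm 1 i') ?_
      rw [q1, q2]; ring
    fin_cases p <;> fin_cases p'
    · simp only [Fin.zero_eta, Fin.isValue, Matrix.cons_val_zero, Nat.cast_one, one_mul, add_right_inj] at e2
      have := hinj _ (hx 0) e2
      simp [this]
    · exfalso
      simp only [Fin.zero_eta, Fin.mk_one, Fin.isValue, Matrix.cons_val_zero, Matrix.cons_val_one, Nat.cast_one, one_mul] at e1 e2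
      exact c01 _ _ e1 e2
    · exfalso
      simp only [Fin.zero_eta, Fin.mk_one, Fin.isValue, Matrix.cons_val_zero, Matrix.cons_val_one, Nat.cast_one, one_mul] at e1 e2
      exact c01 _ _ e1.symm e2.symm
    · simp only [Fin.mk_one, Fin.isValue, Matrix.cons_val_one, Nat.cast_one, one_mul, add_right_inj] at e2
      have := hinj _ (hx 1) e2
      simp [this]
  intro t t' ht
  have := key _ _ _ _ ht
  exact finProdFinEquiv.symm.injective this

theorem LQG_core (hPRT : PRT_stmt) (hLJH : LJH_stmt) {k K₁ : ℕ}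
    (hK₁ : ∀ H : Fin (2 * k) → Finset (ℕ × ℤ), (∀ i, K₁ ≤ #(H i)) → (∀ i, ∀ f ∈ H i, 0 < f.1) →
      (∀ f ∈ Fintype.piFinset H, Adm f ∧ Function.Injective f) → ∃ f ∈ Fintype.piFinset H, Many f)
    (H : Fin k → Finset ℤ) (hH : ∀ i, K₁ ≤ #(H i)) (a b : ℕ) (ha : 0 < a) (hb : 0 < b) (hab : Nat.Coprime a b) (h h' : ℤ)
    (hinj : ∀ y ∈ Fintype.piFinset H, Function.Injective y)
    (hmany : ∀ y ∈ Fintype.piFinset H, ¬ ManyT (th 2) (fo (fun _ => 1) y))
    (hne : ∀ i, ∀ z ∈ H i, ∀ j, ∀ z' ∈ H j, (a : ℤ) * (h + z) - b * (h' + z') ≠ 0)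
    (hadm : ∀ x : Fin 2 → Fin k → ℤ, (∀ p, x p ∈ Fintype.piFinset H) → Adm (cop 2 (fun _ => 1) ![b, a] ![h, h'] x)) :
    ∃ i, ∃ z ∈ H i, ∃ j, ∃ z' ∈ H j, TrueCase a b (a * (h + z) - b * (h' + z')) := by
  classical
  let Hs : Fin (2 * k) → Finset (ℕ × ℤ) := fun t =>
    (H (finProdFinEquiv.symm t).2).image fun x =>
      ((1 * (![b, a] : Fin 2 → ℕ) (finProdFinEquiv.symm t).1 : ℕ), ((1 : ℕ) : ℤ) * (![h, h'] : Fin 2 → ℤ) (finProdFinEquiv.symm t).1 + x)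
  have hμ : ∀ p : Fin 2, 0 < (![b, a] : Fin 2 → ℕ) p := by
    intro p
    fin_cases p
    · simpa using hb
    · simpa using ha
  have hform : ∀ f ∈ Fintype.piFinset Hs, ∃ x : Fin 2 → Fin k → ℤ, (∀ p, x p ∈ Fintype.piFinset H) ∧
      f = cop 2 (fun _ => 1) ![b, a] ![h, h'] x := by
    intro f hf
    rw [Fintype.mem_piFinset] at hf
    have h1 : ∀ t, ∃ y ∈ H (finProdFinEquiv.symm t).2, ((1 * (![b, a] : Fin 2 → ℕ) (finProdFinEquiv.symm t).1 : ℕ),
        ((1 : ℕ) : ℤ) * (![h, h'] : Fin 2 → ℤ) (finProdFinEquiv.symm t).1 + y) = f t := fun t => mem_image.1 (hf t)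
    choose y hy hyf using h1
    refine ⟨fun p i => y (finProdFinEquiv (p, i)), ?_, ?_⟩
    · intro p
      rw [Fintype.mem_piFinset]
      intro i
      have := hy (finProdFinEquiv (p, i))
      rwa [Equiv.symm_apply_apply] at this
    · funext t
      rw [← hyf t]
      simp only [cop, Prod.mk.eta, Equiv.apply_symm_apply]
  obtain ⟨f, hf, hfm⟩ := hK₁ Hs
    (by
      intro t
      refine (hH (finProdFinEquiv.symm t).2).trans ?_
      rw [card_image_of_injective]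
      intro u v huv
      simpa using huv)
    (by
      intro t f hf
      obtain ⟨y, -, rfl⟩ := mem_image.1 hf
      have := hμ (finProdFinEquiv.symm t).1
      simpa using this)
    (by
      intro f hf
      obtain ⟨x, hx, rfl⟩ := hform f hf
      exact ⟨hadm x hx, LQG_inj H a b h h' hinj hne x hx⟩)
  obtain ⟨x, hx, rfl⟩ := hform f hf
  have hxm : ∀ p i, x p i ∈ H i := fun p i => Fintype.mem_piFinset.1 (hx p) i
  obtain ⟨p, q', hpq, i, j, hN⟩ := hLJH k 2 (fun _ => 1) ![b, a] ![h, h'] x hμ (fun p => hmany _ (hx p)) hfm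
  have hcop := hadm x hx
  have hinjc := LQG_inj H a b h h' hinj hne x hx
  have hfin : ∀ i j, (∀ N : ℕ, ∃ n ≥ N, (ev (b, h + x 0 i) n).Prime ∧ (ev (a, h' + x 1 j) n).Prime) →
      TrueCase a b (a * (h + x 0 i) - b * (h' + x 1 j)) := by
    intro i j hN
    have ct : ∀ (p : Fin 2) (i : Fin k), cop 2 (fun _ => 1) ![b, a] ![h, h'] x (finProdFinEquiv (p, i)) =
        ((1 * (![b, a] : Fin 2 → ℕ) p : ℕ), ((1 : ℕ) : ℤ) * (![h, h'] : Fin 2 → ℤ) p + x p i) := by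
      intro p i
      simp only [cop, Equiv.symm_apply_apply]
    have ct0 : cop 2 (fun _ => 1) ![b, a] ![h, h'] x (finProdFinEquiv (0, i)) = (b, h + x 0 i) := by
      rw [ct]; simp
    have ct1 : cop 2 (fun _ => 1) ![b, a] ![h, h'] x (finProdFinEquiv (1, j)) = (a, h' + x 1 j) := by
      rw [ct]; simp
    have hP := hPRT (b, h + x 0 i) (a, h' + x 1 j) hb ha
      (by
        intro he
        rw [← ct0, ← ct1] at he
        have := finProdFinEquiv.injective (hinjc he)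
        simp at this)
      (by
        intro l hl
        obtain ⟨n, hn⟩ := hcop l hl
        refine ⟨n, ?_⟩
        intro t
        fin_cases t
        · have := hn (finProdFinEquiv (0, i))
          rw [ct0] at this
          simpa using this
        · have := hn (finProdFinEquiv (1, j))
          rw [ct1] at this
          simpa using this)
      hN
    unfold Pair at hP
    simp only at hP
    have hg : Nat.gcd b a = 1 := by rw [Nat.gcd_comm]; exact hab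
    rw [hg] at hP
    simpa using hP
  fin_cases p <;> fin_cases q'
  · exact absurd rfl hpq
  · refine ⟨i, x 0 i, hxm 0 i, j, x 1 j, hxm 1 j, hfin i j ?_⟩
    intro N
    obtain ⟨n, hn, h1, h2⟩ := hN N
    refine ⟨n, hn, ?_, ?_⟩
    · simpa using h1
    · simpa using h2
  · refine ⟨j, x 0 j, hxm 0 j, i, x 1 i, hxm 1 i, hfin j i ?_⟩
    intro N
    obtain ⟨n, hn, h1, h2⟩ := hN N
    refine ⟨n, hn, ?_, ?_⟩
    · simpa using h2
    · simpa using h1
  · exact absurd rfl hpq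

theorem LQG_key (hPRT : PRT_stmt) (hLQA : LQA_stmt) (hLJH : LJH_stmt) (hSOL : Pool.Agent.AL.SOL_stmt) {k K₁ : ℕ}
    (hK₁ : ∀ H : Fin (2 * k) → Finset (ℕ × ℤ), (∀ i, K₁ ≤ #(H i)) → (∀ i, ∀ f ∈ H i, 0 < f.1) →
      (∀ f ∈ Fintype.piFinset H, Adm f ∧ Function.Injective f) → ∃ f ∈ Fintype.piFinset H, Many f)
    (q w : ℕ) (hw : 2 * k ≤ w) (H : Fin k → Finset ℤ) (hH : ∀ i, K₁ ≤ #(H i))
    (hq : ∀ i, ∀ x ∈ H i, (q : ℤ) ∣ x)
    (hinj : ∀ y ∈ Fintype.piFinset H, Function.Injective y)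
    (hmany : ∀ y ∈ Fintype.piFinset H, ¬ ManyT (th 2) (fo (fun _ => 1) y))
    (g g' : ℤ)
    (hg : ∀ l : ℕ, l.Prime → l ∣ q * w.factorial → ∀ i, ∀ x ∈ H i, ¬ (l : ℤ) ∣ g + x ∧ ¬ (l : ℤ) ∣ g' + x)
    (D : ℕ) (hD : ∀ i, ∀ z ∈ H i, |z| < (D : ℤ)) (a b : ℕ) (ha : 0 < a) (hb : 0 < b) (hab : Nat.Coprime a b)
    (c₀ : ℤ) (h1 : ((q * w.factorial : ℕ) : ℤ) ∣ c₀ - (a * g - b * g'))
    (h2 : ∀ l ∈ (a * b).primeFactors, w < l → ¬ l ∣ q → l ∣ b → ∀ i, ∀ z ∈ H i, ¬ (l : ℤ) ∣ c₀ - (-(a * z)))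
    (h3 : ∀ l ∈ (a * b).primeFactors, w < l → ¬ l ∣ q → ¬ l ∣ b → ∀ i, ∀ z ∈ H i, ¬ (l : ℤ) ∣ c₀ - b * z)
    (h4 : (D : ℤ) * (a + b) ≤ |c₀|) :
    ∃ c : ℤ, c₀ - D * (a + b) < c ∧ c < c₀ + D * (a + b) ∧ (q : ℤ) ∣ c - c₀ ∧ TrueCase a b c := by
  obtain ⟨h, h', hh, hh', hc⟩ := hSOL a b (q * w.factorial) g g' c₀ hab h1
  have haz : (0 : ℤ) < a := by exact_mod_cast ha
  have hbz : (0 : ℤ) < b := by exact_mod_cast hb
  have hfour : ∀ l : ℕ, l.Prime → l ∣ q * w.factorial → ∀ i, ∀ x ∈ H i, ¬ (l : ℤ) ∣ h + x ∧ ¬ (l : ℤ) ∣ h' + x := by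
    intro l hl hlm i x hx
    obtain ⟨q1, q2⟩ := hg l hl hlm i x hx
    have hlm' : (l : ℤ) ∣ ((q * w.factorial : ℕ) : ℤ) := by exact_mod_cast hlm
    have d1 : (l : ℤ) ∣ h - g := hlm'.trans hh
    have d2 : (l : ℤ) ∣ h' - g' := hlm'.trans hh'
    refine ⟨fun hd => q1 ?_, fun hd => q2 ?_⟩
    · have e : g + x = (h + x) - (h - g) := by ring
      rw [e]
      exact dvd_sub hd d1
    · have e : g' + x = (h' + x) - (h' - g') := by ring
      rw [e]
      exact dvd_sub hd d2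
  have hmem : ∀ l : ℕ, l.Prime → l ∣ a * b → l ∈ (a * b).primeFactors := by
    intro l hl hd
    exact Nat.mem_primeFactors.2 ⟨hl, hd, (Nat.mul_pos ha hb).ne'⟩
  have hadm := hLQA q k w a b h h' H hw hfour
    (by
      intro l hl hlk hlm hlb i z hz hdv
      refine h2 l (hmem l hl (hlb.mul_left a)) hlk hlm hlb i z hz ?_
      have e : c₀ - (-(a * z)) = a * (h + z) - b * h' := by rw [← hc]; ring
      rw [e]
      exact dvd_sub (hdv.mul_left _) ((Int.natCast_dvd_natCast.2 hlb).mul_right _))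
    (by
      intro l hl hlk hlm hla i z hz hdv
      have hlb : ¬ l ∣ b := fun hlb => by
        have := Nat.dvd_gcd hla hlb
        rw [hab] at this
        exact hl.one_lt.ne' (Nat.dvd_one.1 this)
      refine h3 l (hmem l hl (hla.mul_right b)) hlk hlm hlb i z hz ?_
      have e : c₀ - b * z = a * h - b * (h' + z) := by rw [← hc]; ring
      rw [e]
      exact dvd_sub ((Int.natCast_dvd_natCast.2 hla).mul_right _) (hdv.mul_left _))
  obtain ⟨i, z, hz, j, z', hz', ht⟩ := LQG_core hPRT hLJH hK₁ H hH a b ha hb hab h h' hinj hmany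
    (by
      intro i z hz j z' hz' he
      have hb1 := LQG_bd a b D z z' haz hbz (hD i z hz) (hD j z' hz')
      have e : c₀ = -((a : ℤ) * z - b * z') := by rw [← hc]; linarith
      rw [e, abs_neg] at h4
      linarith) hadm
  have hb1 := LQG_bd a b D z z' haz hbz (hD i z hz) (hD j z' hz')
  rw [abs_lt] at hb1
  have e : (a : ℤ) * (h + z) - b * (h' + z') = c₀ + (a * z - b * z') := by rw [← hc]; ring
  refine ⟨a * (h + z) - b * (h' + z'), ?_, ?_, ?_, ht⟩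
  · rw [e]; linarith [hb1.1]
  · rw [e]; linarith [hb1.2]
  · rw [e, add_sub_cancel_left]
    exact dvd_sub ((hq i z hz).mul_left _) ((hq j z' hz').mul_left _)

theorem LQG (hBOX : ∀ k, 1 ≤ k → BOXk k) (hPRT : PRT_stmt) (hLQP : LQP_stmt) (hLQH : LQH_stmt) (hLQA : LQA_stmt)
    (hLJH : LJH_stmt) (hSOL : Pool.Agent.AL.SOL_stmt) (hMJA : Pool.Agent.AL.MJA_stmt) : LADQ_stmt := by
  classical
  intro q hq1
  by_cases hA : ∀ k : ℕ, 1 ≤ k → ∃ K : ℕ, BoxQ (th 2) q k K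
  · exact Or.inl hA
  right
  push Not at hA
  obtain ⟨k, hk, hbad⟩ := hA
  obtain ⟨K₁, hK₁⟩ := hBOX (2 * k) (by omega)
  set K₀ : ℕ := K₁ + 1 with hK₀
  set κ : ℕ := k * K₀ with hκ
  have hκ1 : k ≤ κ := by rw [hκ]; exact Nat.le_mul_of_pos_right k (by omega)
  have hκ0 : 1 ≤ κ := hk.trans hκ1
  obtain ⟨H, hHc, hHw, hHq, hH⟩ := hLQP (th 2) q k K₀ (2 * κ).factorial hk (by omega) (Nat.factorial_pos _)
    (hbad _)
  obtain ⟨C₁, hC₁⟩ := hMJA κ q hκ0 hq1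
  set Z : Finset ℤ := Finset.univ.biUnion H with hZ
  have hZm : ∀ i, ∀ z ∈ H i, z ∈ Z := fun i z hz => mem_biUnion.2 ⟨i, mem_univ i, hz⟩
  have hcardZ : #Z ≤ κ := by
    refine card_biUnion_le.trans ?_
    rw [sum_congr rfl (fun i _ => hHc i)]
    simp [hκ]
  obtain ⟨D, hD⟩ : ∃ D : ℕ, ∀ z ∈ Z, |z| < (D : ℤ) := by
    refine ⟨(∑ z ∈ Z, z.natAbs) + 1, ?_⟩
    intro z hz
    have h1 : z.natAbs ≤ ∑ z ∈ Z, z.natAbs :=
      Finset.single_le_sum (f := fun z : ℤ => z.natAbs) (fun _ _ => Nat.zero_le _) hz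
    have h2 : |z| = (z.natAbs : ℤ) := Int.abs_eq_natAbs z
    rw [h2]
    push_cast
    have h3 : (z.natAbs : ℤ) ≤ ((∑ z ∈ Z, z.natAbs : ℕ) : ℤ) := by exact_mod_cast h1
    push_cast at h3
    linarith
  refine ⟨2 * C₁ + 5 * D, ?_⟩
  intro a b c' hposs u
  have hne : ∀ i, (H i).Nonempty := fun i => card_pos.1 (by rw [hHc i]; omega)
  obtain ⟨g, g', hgc, hg⟩ := hLQH q k (2 * κ) a b c' H hq1 hposs hne hHw hHq (fun y hy => (hH y hy).1)
  have ha : 0 < a := hposs.1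
  have hb : 0 < b := hposs.2.1
  have hab : Nat.Coprime a b := hposs.2.2.2.1
  have hpos : (0 : ℤ) < (a : ℤ) + b := by
    have : 0 < a + b := by omega
    exact_mod_cast this
  have hD0 : (0 : ℤ) ≤ D := by exact_mod_cast Nat.zero_le D
  have hC0 : (0 : ℤ) ≤ C₁ := by exact_mod_cast Nat.zero_le C₁
  have pick : ∀ v : ℤ, ∃ c₀ : ℤ, v < c₀ ∧ c₀ ≤ v + C₁ * (a + b) ∧
      ((q * (2 * κ).factorial : ℕ) : ℤ) ∣ c₀ - (a * g - b * g') ∧
      (∀ l ∈ (a * b).primeFactors, 2 * κ < l → ¬ l ∣ q → l ∣ b → ∀ i, ∀ z ∈ H i, ¬ (l : ℤ) ∣ c₀ - (-(a * z))) ∧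
      (∀ l ∈ (a * b).primeFactors, 2 * κ < l → ¬ l ∣ q → ¬ l ∣ b → ∀ i, ∀ z ∈ H i, ¬ (l : ℤ) ∣ c₀ - b * z) := by
    intro v
    obtain ⟨c, hc1, hc2, hc3, hc4⟩ := hC₁ (a * b) (a * g - b * g')
      (fun l => if l ∣ b then Z.image (fun z => -(a * z)) else Z.image (fun z => b * z))
      (Nat.mul_pos ha hb)
      (by
        intro l
        by_cases hl : l ∣ b
        · simp only [hl, if_true]
          exact card_image_le.trans hcardZ
        · simp only [hl, if_false]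
          exact card_image_le.trans hcardZ) v
    refine ⟨c, hc1, ?_, hc3, ?_, ?_⟩
    · have h1 : √(((a * b : ℕ)) : ℝ) ≤ (a : ℝ) + b := by
        rw [Real.sqrt_le_iff]
        have ha' : (0 : ℝ) ≤ a := Nat.cast_nonneg a
        have hb' : (0 : ℝ) ≤ b := Nat.cast_nonneg b
        refine ⟨by positivity, ?_⟩
        push_cast
        nlinarith [mul_nonneg ha' hb']
      have h2 : (C₁ : ℝ) * √(((a * b : ℕ)) : ℝ) ≤ C₁ * ((a : ℝ) + b) :=
        mul_le_mul_of_nonneg_left h1 (Nat.cast_nonneg C₁)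
      have h3 : (c : ℝ) ≤ v + C₁ * ((a : ℝ) + b) := hc2.trans (by linarith)
      exact_mod_cast h3
    · intro l hl hlk hlm hlb i z hz
      refine hc4 l hl hlk hlm _ ?_
      simp only [hlb, if_true]
      exact mem_image_of_mem _ (hZm i z hz)
    · intro l hl hlk hlm hlb i z hz
      refine hc4 l hl hlk hlm _ ?_
      simp only [hlb, if_false]
      exact mem_image_of_mem _ (hZm i z hz)
  have hfin : ∀ c₀ c : ℤ, ((q * (2 * κ).factorial : ℕ) : ℤ) ∣ c₀ - (a * g - b * g') → (q : ℤ) ∣ c - c₀ →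
      (q : ℤ) ∣ c - c' := by
    intro c₀ c q1 q2
    have q3 : (q : ℤ) ∣ c₀ - (a * g - b * g') := by
      refine Dvd.dvd.trans ?_ q1
      push_cast
      exact Dvd.intro _ rfl
    have e : c - c' = (c - c₀) + (c₀ - (a * g - b * g')) + ((a * g - b * g') - c') := by ring
    rw [e]
    exact dvd_add (dvd_add q2 q3) hgc
  have hHK : ∀ i, K₁ ≤ #(H i) := fun i => by rw [hHc i]; omega
  have hinj : ∀ y ∈ Fintype.piFinset H, Function.Injective y := fun y hy => (hH y hy).2.1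
  have hmany : ∀ y ∈ Fintype.piFinset H, ¬ ManyT (th 2) (fo (fun _ => 1) y) := fun y hy => (hH y hy).2.2
  have hDH : ∀ i, ∀ z ∈ H i, |z| < (D : ℤ) := fun i z hz => hD z (hZm i z hz)
  obtain ⟨c₁, p1, p2, p3, p4, p5⟩ := pick (u + D * (a + b))
  obtain ⟨c₂, q1, q2, q3, q4, q5⟩ := pick (u + (C₁ + 4 * D) * (a + b))
  have hDs : (0 : ℤ) ≤ D * (a + b) := mul_nonneg hD0 hpos.le
  have hCs : (0 : ℤ) ≤ C₁ * (a + b) := mul_nonneg hC0 hpos.le
  have ex2 : ((C₁ : ℤ) + 4 * D) * (a + b) = C₁ * (a + b) + 4 * (D * (a + b)) := by ring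
  have ex3 : (((2 * C₁ + 5 * D : ℕ)) : ℤ) * (a + b) = 2 * (C₁ * (a + b)) + 5 * (D * (a + b)) := by
    push_cast; ring
  rw [ex2] at q1 q2
  by_cases hc : (D : ℤ) * (a + b) ≤ |c₁|
  · obtain ⟨c, e1, e2, e4, e3⟩ := LQG_key hPRT hLQA hLJH hSOL hK₁ q (2 * κ) (by omega) H hHK hHq hinj hmany g g' hg D hDH
      a b ha hb hab c₁ p3 p4 p5 hc
    refine ⟨c, ?_, hfin c₁ c p3 e4, e3⟩
    rw [mem_Ioc, ex3]
    constructor <;> linarith
  · have hc' : (D : ℤ) * (a + b) ≤ |c₂| := by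
      by_contra hcc
      rw [not_le, abs_lt] at hc hcc
      linarith [hc.1, hc.2, hcc.1, hcc.2]
    obtain ⟨c, e1, e2, e4, e3⟩ := LQG_key hPRT hLQA hLJH hSOL hK₁ q (2 * κ) (by omega) H hHK hHq hinj hmany g g' hg D hDH
      a b ha hb hab c₂ q3 q4 q5 hc'
    refine ⟨c, ?_, hfin c₂ c q3 e4, e3⟩
    rw [mem_Ioc, ex3]
    constructor <;> linarith

end Pool.Agent.LD
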